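import Pool.Agent.U922.DS.Ord

/-!
# The moments of zeta over the heights with a given set of directions

Let `p > 1` be real (`p = 2k`, `k > 1/2`) and let `Φ ⊆ [0, π)` be a Borel set, of measure `|Φ|`. `Dir Φ` is the set of the heights
`t` at which `ζ(1/2 + it)` lies on a line `e^{iφ} ℝ` with `φ ∈ Φ`, and `R p Φ a b` is the integral of `|ζ(1/2 + it)|^p` over the
`t ∈ (a, b]` in `Dir Φ`.

* (comparison, uniform in `Φ`) there are `C`, `T₀`, which depend only on `p`, such that for all Borel sets `Φ ⊆ [0, π)` and all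
  `T ≥ T₀`: `|Φ| ∫_T^{8T} |ζ|^p ≤ C R p Φ (T/2) (16T)` and `R p Φ T (8T) ≤ C |Φ| ∫_{T/2}^{16T} |ζ|^p`. Here `Φ` may depend
  on `T`.
* (upper bounds) if `|Φ| > 0` and `E ≥ 0`, then `∫_0^T |ζ|^p ≪ T (log T)^E`, `T ≥ 2`, if and only if
  `R p Φ 0 T ≪ T (log T)^E`, `T ≥ 2`. For `E = p²/4 = k²` this is the upper bound of the conjectured order.
* (lower bounds, unconditional) `R p Φ (T/2) (16T) ≥ c |Φ| T (log T)^(p²/4)`, uniformly in `Φ`.
* (upper bounds, unconditional) for `p ≤ 2` and for `p = 4`: `R p Φ T (8T) ≤ K |Φ| T (log T)^(p²/4)`, uniformly in `Φ`.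

The proof averages the comparison `Pool.Agent.W188.GP.a_fin` of the continuous and the discrete moments (starting library,
helper188 and others) over the lines, against the indicator function of `Φ`.
-/

set_option autoImplicit false

open Filter Topology Set MeasureTheory

namespace Pool.Agent.Results.MP_973905_nt.DirectionSets

open Pool.Agent.U922.OL Pool.Agent.U922.DS

theorem result :
    -- comparison
    (∀ p : ℝ, 1 < p → ∃ C T₀ : ℝ, 0 < C ∧ ∀ (Φ : Set ℝ) (T : ℝ),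
      MeasurableSet Φ → Φ ⊆ Ico 0 Real.pi → T₀ ≤ T →
      volume.real Φ * (∫ t in T..(8 * T), ‖z t‖ ^ p) ≤ C * R p Φ (T / 2) (16 * T) ∧
      R p Φ T (8 * T) ≤ C * (volume.real Φ * ∫ t in (T / 2)..(16 * T), ‖z t‖ ^ p)) ∧
    -- upper bounds
    (∀ (p E : ℝ) (Φ : Set ℝ), 1 < p → 0 ≤ E → MeasurableSet Φ → Φ ⊆ Ico 0 Real.pi → volume Φ ≠ 0 →
      ((∃ B : ℝ, ∀ T : ℝ, 2 ≤ T → ∫ t in (0 : ℝ)..T, ‖z t‖ ^ p ≤ B * (T * Real.log T ^ E)) ↔
        ∃ B : ℝ, ∀ T : ℝ, 2 ≤ T → R p Φ 0 T ≤ B * (T * Real.log T ^ E))) ∧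
    -- lower bounds, unconditional
    (∀ p : ℝ, 1 < p → ∃ c T₁ : ℝ, 0 < c ∧ ∀ (Φ : Set ℝ) (T : ℝ),
      MeasurableSet Φ → Φ ⊆ Ico 0 Real.pi → T₁ ≤ T →
      c * (volume.real Φ * (T * Real.log T ^ (p ^ 2 / 4))) ≤ R p Φ (T / 2) (16 * T)) ∧
    -- upper bounds of the same order for `p ≤ 2` and `p = 4`, unconditional
    (∀ p : ℝ, 1 < p → p ≤ 2 ∨ p = 4 → ∃ K T₁ : ℝ, 0 < K ∧ ∀ (Φ : Set ℝ) (T : ℝ),
      MeasurableSet Φ → Φ ⊆ Ico 0 Real.pi → T₁ ≤ T →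
      R p Φ T (8 * T) ≤ K * (volume.real Φ * (T * Real.log T ^ (p ^ 2 / 4)))) := by
  refine ⟨fun p hp => ?_, fun p E Φ hp hE hm hΦ hpos => upper_iffR hp hE hm hΦ hpos, fun p hp => lowerR hp,
    fun p hp hp2 => ?_⟩
  · obtain ⟨C, T₀, hC, -, h⟩ := cmpR hp
    exact ⟨C, T₀, hC, h⟩
  · rcases hp2 with h | h
    · obtain ⟨c, K, -, hK, hev⟩ := small_exact (by linarith : 0 < p) h
      exact upperR hp (by positivity) ⟨K, hK, hev.mono fun T hT => hT.2⟩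
    · subst h
      exact upperR hp (by positivity) four_upper

end Pool.Agent.Results.MP_973905_nt.DirectionSets
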