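import Pool.Agent.U899.TM.RealG

set_option autoImplicit false

/-!
# Large and small values of zeta near the critical line, jointly with the phases of the small primes

Let `d = d(T) → 0` with `d log T / log²(1/d) → ∞`, let `V` be ANY real number, `P` a finite set of primes and `F` a
continuous function of the phases of `p^(-it)`, `p ∈ P`.  Then

`sqrt(π log(1/2d)) (2d)^(-V²) (1/T) ∫_0^T F(phases) h(log |ζ(1/2+d+it)| - V log(1/2d)) dt → a(V) E_V[F] ∫ e^(-2Vx) h(x) dx`,

where `E_V[F]` is the mean of `F` for independent phases with densities proportional to `|1 - e(y) p^(-1/2)|^(-2V)`.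
So, conditionally on a large value `|ζ| > (2d)^(-V)`, `V > 0` (or a small value `|ζ| < (2d)^(-V)`, `V < 0`), the
phases of the small primes are asymptotically independent with these explicit densities.
-/

namespace Pool.Agent.Results.MP_973905_nt.LargeValuesAndSmallPrimes

open MeasureTheory Filter Topology

/-- The arithmetic factor `a(V)`, for all real `V`; `V(V+1)⋯(V+m-1)/m!` is `Γ(V+m)/(Γ(V) m!)`. -/
noncomputable def a (V : ℝ) : ℝ := ∏' p : Nat.Primes, ((1 - 1 / (p : ℝ)) ^ (V ^ 2) *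
  ∑' m : ℕ, (∏ i ∈ Finset.range m, (V + i) / ((i : ℝ) + 1)) ^ 2 * (1 / (p : ℝ)) ^ m)

/-- The phases `-t log p / 2π` modulo one of the numbers `p^(-it)`, `p ∈ P`. -/
noncomputable def phases (P : Finset ℕ) (t : ℝ) : P → UnitAddCircle :=
  fun p => ((-(t * Real.log (p : ℕ) / (2 * Real.pi)) : ℝ) : UnitAddCircle)

/-- `|1 - e(y) p^(-1/2)|^(-2V)`, with `e(y) = exp(2πiy)`. -/
noncomputable def weight (V : ℝ) (p : ℕ) (y : UnitAddCircle) : ℝ :=
  ‖1 - (fourier 1 y : ℂ) * (((p : ℝ) ^ (-(1 / 2 : ℝ)) : ℝ) : ℂ)‖ ^ (-(2 * V))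

/-- `E_V[F]`: the mean value of `F` for independent phases whose densities are proportional to the weights. -/
noncomputable def tiltedMean (V : ℝ) (P : Finset ℕ) (F : (P → UnitAddCircle) → ℝ) : ℝ :=
  (∫ x, F x * ∏ p : P, weight V p (x p) ∂(Measure.pi fun _ : P => AddCircle.haarAddCircle (T := (1 : ℝ)))) /
    ∏ p : P, ∫ y, weight V p y ∂(AddCircle.haarAddCircle (T := (1 : ℝ)))

/-- `|ζ(1/2 + d + it)|` -/
noncomputable def z (d t : ℝ) : ℝ := ‖riemannZeta (1 / 2 + d + t * Complex.I)‖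

/-- `log(1/2d)` -/
noncomputable def L (d : ℝ) : ℝ := Real.log (1 / (2 * d))

/-- The mean value of `F(phases)` over the heights `t ∈ [0, T]` that lie in `S`. -/
noncomputable def condMean (P : Finset ℕ) (F : (P → UnitAddCircle) → ℝ) (T : ℝ) (S : Set ℝ) : ℝ :=
  (∫ t in {t : ℝ | t ∈ Set.Icc 0 T ∧ t ∈ S}, F (phases P t)) / (volume {t : ℝ | t ∈ Set.Icc 0 T ∧ t ∈ S}).toReal

open Pool.Agent.N748.MG in
lemma tm_eq (V : ℝ) {P : Finset ℕ} (hP : ∀ p ∈ P, p.Prime) (F : (P → UnitAddCircle) → ℝ) :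
    Pool.Agent.U899.TM.tm V P F = tiltedMean V P F := by
  have hw : ∀ (p : P) (y : UnitAddCircle), Real.exp (Pool.Agent.N748.GC.lw V p y) = weight V p y := by
    intro p y
    unfold Pool.Agent.N748.GC.lw weight
    rw [Real.rpow_def_of_pos (Pool.Agent.N748.GC.RZ.norm_pos' (hP p p.2) y)]
    congr 1
    ring
  have hM : ∀ x : P → UnitAddCircle, Pool.Agent.N748.GC.M0 V P x =
      (∏ p : P, weight V p (x p)) / ∏ p : P, ∫ y, weight V p y ∂(AddCircle.haarAddCircle (T := (1 : ℝ))) := by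
    intro x
    unfold Pool.Agent.N748.GC.M0 Pool.Agent.N748.GC.E0
    rw [Real.exp_sum]
    simp only [hw]
  unfold Pool.Agent.U899.TM.tm tiltedMean
  rw [← integral_div]
  refine integral_congr_ae (ae_of_all _ fun x => ?_)
  simp only [hM]
  ring

theorem result (d : ℝ → ℝ) (hd0 : ∀ᶠ T : ℝ in atTop, 0 < d T) (hd : Tendsto d atTop (𝓝 0))
    (hdL : Tendsto (fun T : ℝ => d T * Real.log T / Real.log (1 / d T) ^ 2) atTop atTop) (V : ℝ)
    (P : Finset ℕ) (hP : ∀ p ∈ P, p.Prime) (F : (P → UnitAddCircle) → ℝ) (hF : Continuous F) :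
    0 < a V ∧
    (∀ (h : ℝ → ℝ) (S : Finset ℝ), Measurable h → (∀ x, x ∉ S → ContinuousAt h x) → (∃ C : ℝ, ∀ x, |h x| ≤ C) →
      (∃ C : ℝ, ∀ x, |h x| * (1 + x ^ 2) ≤ C * Real.exp (2 * V * x)) →
      Tendsto (fun T : ℝ => Real.sqrt (Real.pi * L (d T)) * (2 * d T) ^ (-(V ^ 2)) *
        ((1 / T) * ∫ t in (0 : ℝ)..T, F (phases P t) * h (Real.log (z (d T) t) - V * L (d T)))) atTop
        (𝓝 (a V * tiltedMean V P F * ∫ x, Real.exp (-(2 * V * x)) * h x))) ∧
    (0 < V → Tendsto (fun T : ℝ => condMean P F T {t | (2 * d T) ^ (-V) < z (d T) t}) atTop (𝓝 (tiltedMean V P F))) ∧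
    (V < 0 → Tendsto (fun T : ℝ => condMean P F T {t | z (d T) t < (2 * d T) ^ (-V)}) atTop (𝓝 (tiltedMean V P F))) := by
  have hA : Pool.Agent.N748.MG.Ad d := ⟨hd0, hd, hdL⟩
  have hvol : ∀ (S : Set ℝ) (δ : ℝ), ∫ t in S, Pool.Agent.N748.MG.mz δ t ^ (2 * (0 : ℝ)) = (volume S).toReal :=
    fun S δ => Pool.Agent.N748.MG.TMC.vol_eq
  have hint : ∀ (S : Set ℝ) (δ : ℝ), ∫ t in S, F (Pool.Agent.N748.GC.pt P t) * Pool.Agent.N748.MG.mz δ t ^ (2 * (0 : ℝ)) =
      ∫ t in S, F (phases P t) := by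
    intro S δ
    refine integral_congr_ae (ae_of_all _ fun t => ?_)
    simp only [mul_zero, Real.rpow_zero, mul_one]
    rfl
  refine ⟨(Pool.Agent.N748.MG.aC_akR V).1, fun h S hm hc h1 h2 => ?_, fun hV => ?_, fun hV => ?_⟩
  · have key := Pool.Agent.U899.TM.real_general hP hF hA V h S hm hc h1 h2
    rw [tm_eq V hP F] at key
    exact key
  · have key := Pool.Agent.U899.TM.condF hP hF hA V 0 1 (by norm_num) (by linarith) (by linarith) (Set.Ioi 0)
      measurableSet_Ioi (fun x hx => by rw [Set.mem_Ioi]; linarith)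
      (fun x hx => by rw [Set.mem_Ioi] at hx; linarith) (Pool.Agent.N748.MG.TMC.int_pos (by linarith))
      (fun T => {t | (2 * d T) ^ (-V) < z (d T) t})
      (fun T hT => measurableSet_lt measurable_const (Pool.Agent.N748.MG.TMC.mz_meas hT)) (fun T h0 t ht => by
        change (2 * d T) ^ (-V) < Pool.Agent.N748.MG.mz (d T) t ↔ _
        rw [Pool.Agent.N748.MG.TMC.level h0, Set.mem_Ioi, sub_pos, Real.lt_log_iff_exp_lt ht])
    rw [tm_eq V hP F] at key
    refine key.congr fun T => ?_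
    rw [hvol, hint]
    rfl
  · have key := Pool.Agent.U899.TM.condF hP hF hA V 0 (-1) (by norm_num) (by linarith) (by linarith) (Set.Iio 0)
      measurableSet_Iio (fun x hx => by rw [Set.mem_Iio]; linarith)
      (fun x hx => by rw [Set.mem_Iio] at hx; linarith)
      (by rw [← integral_Iic_eq_integral_Iio]; exact Pool.Agent.N748.MG.TMC.int_neg (by linarith))
      (fun T => {t | z (d T) t < (2 * d T) ^ (-V)})
      (fun T hT => measurableSet_lt (Pool.Agent.N748.MG.TMC.mz_meas hT) measurable_const) (fun T h0 t ht => by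
        change Pool.Agent.N748.MG.mz (d T) t < (2 * d T) ^ (-V) ↔ _
        rw [Pool.Agent.N748.MG.TMC.level h0, Set.mem_Iio, sub_neg, Real.log_lt_iff_lt_exp ht])
    rw [tm_eq V hP F] at key
    refine key.congr fun T => ?_
    rw [hvol, hint]
    rfl

end Pool.Agent.Results.MP_973905_nt.LargeValuesAndSmallPrimes
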