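import Pool.Agent.U575.RO.All
import Pool.Agent.U575.RO.Unc
import Pool.Agent.N748.MG.Res

set_option autoImplicit false

/-!
# All real and complex moments of zeta just off the critical line
-/

namespace Pool.Agent.Results.MP_973905_nt.RealOffTheLine

open MeasureTheory Filter Topology Set

/-- `|ζ(σ + it)|` -/
noncomputable def z (σ t : ℝ) : ℝ := ‖riemannZeta ((σ : ℂ) + (t : ℂ) * Complex.I)‖

/-- `∫_0^T |ζ(σ + it)|^{2κ} dt`, `κ` real -/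
noncomputable def Mom (κ σ T : ℝ) : ℝ := ∫ t in (0:ℝ)..T, z σ t ^ (2 * κ)

/-- `∫_0^T |ζ(σ + it)|^{2s} dt`, `s` complex -/
noncomputable def MomC (s : ℂ) (σ T : ℝ) : ℂ := ∫ t in (0:ℝ)..T, ((z σ t : ℝ) : ℂ) ^ (2 * s)

/-- the arithmetic factor
`a(κ) = ∏_p (1 - 1/p)^{κ²} ∑_m (κ (κ+1) ⋯ (κ+m-1) / m!)² p^{-m}` of the conjecture, `κ` real -/
noncomputable def a (κ : ℝ) : ℝ :=
  ∏' p : Nat.Primes, ((1 - 1 / (p : ℝ)) ^ (κ ^ 2) *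
    ∑' m : ℕ, (∏ i ∈ Finset.range m, (κ + i) / ((i : ℝ) + 1)) ^ 2 * (1 / (p : ℝ)) ^ m)

/-- the arithmetic factor for complex arguments -/
noncomputable def aC (s : ℂ) : ℂ :=
  ∏' p : Nat.Primes, ((1 - 1 / (p : ℂ)) ^ (s ^ 2) *
    ∑' m : ℕ, (∏ i ∈ Finset.range m, (s + i) / ((i : ℂ) + 1)) ^ 2 * (1 / (p : ℂ)) ^ m)

/-- on the critical line: `∫_0^T |ζ(1/2 + it)|^{2κ} dt = O(T e^{δ c(T)})` for every `δ > 0` -/
def Line (c : ℝ → ℝ) (κ : ℝ) : Prop := ∀ δ : ℝ, 0 < δ → ∃ C : ℝ, ∀ᶠ T : ℝ in atTop,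
  Mom κ (1 / 2) T ≤ C * T * Real.exp (δ * c T)

/-- the asymptotic formula of order `2κ` at every distance `δ c(T) / log T`, `δ > 0` -/
def Near (c : ℝ → ℝ) (κ : ℝ) : Prop := ∀ δ : ℝ, 0 < δ → Tendsto (fun T : ℝ =>
  (2 * (δ * c T / Real.log T)) ^ (κ ^ 2) * (1 / T * Mom κ (1 / 2 + δ * c T / Real.log T) T)) atTop (𝓝 (a κ))

/-- some power of the logarithm at every distance `δ c(T) / log T`, `δ > 0` -/
def Poly (c : ℝ → ℝ) (κ : ℝ) : Prop := ∀ δ : ℝ, 0 < δ → ∃ A : ℝ, ∀ᶠ T : ℝ in atTop,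
  Mom κ (1 / 2 + δ * c T / Real.log T) T ≤ T * Real.log T ^ A

/-- the asymptotic formulae of all complex orders `2s`, `0 ≤ Re s < κ`, locally uniformly in `s`, at every distance
`δ c(T) / log T`, `δ > 0` -/
def NearC (c : ℝ → ℝ) (κ : ℝ) : Prop := ∀ δ : ℝ, 0 < δ → ∀ R κ' ε : ℝ, κ' < κ → 0 < ε → ∀ᶠ T : ℝ in atTop,
  ∀ s : ℂ, ‖s‖ ≤ R → 0 ≤ s.re → s.re ≤ κ' →
    ‖((2 * (δ * c T / Real.log T) : ℝ) : ℂ) ^ (s ^ 2) *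
      ((1 / T : ℝ) * MomC s (1 / 2 + δ * c T / Real.log T) T) - aC s‖ ≤ ε

/-- a scale: `c` is nondecreasing on `[S, ∞)`, `c(T)/(log log T)² → ∞`, `c(T)/log T → 0`, `c(2T) ≤ K c(T)` -/
def Scale (c : ℝ → ℝ) (S K : ℝ) : Prop := MonotoneOn c (Ici S) ∧
  Tendsto (fun T => c T / Real.log (Real.log T) ^ 2) atTop atTop ∧
  Tendsto (fun T => c T / Real.log T) atTop (𝓝 0) ∧ 0 < K ∧ ∀ᶠ T : ℝ in atTop, c (2 * T) ≤ K * c T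

/-- admissible distances: `d > 0`, `d → 0`, `d(T) log T / (log (1/d(T)))² → ∞` -/
def Adm (d : ℝ → ℝ) : Prop := (∀ᶠ T : ℝ in atTop, 0 < d T) ∧ Tendsto d atTop (𝓝 0) ∧
  Tendsto (fun T : ℝ => d T * Real.log T / Real.log (1 / d T) ^ 2) atTop atTop

/-- the Lindelöf hypothesis -/
def Lindelof : Prop := ∀ ε : ℝ, 0 < ε → ∃ C : ℝ, ∀ t : ℝ,
  ‖riemannZeta (1 / 2 + t * Complex.I)‖ ≤ C * (1 + |t|) ^ ε

open Pool.Agent.U575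

lemma z_eq (r t : ℝ) : z (1 / 2 + r) t = N748.MG.mz r t := by
  unfold z N748.MG.mz N748.MG.pw
  congr 2
  push_cast
  ring

lemma Mom_eq (κ r T : ℝ) : Mom κ (1 / 2 + r) T = RO.MR κ r T := by
  unfold Mom RO.MR
  simp only [z_eq]

lemma Mom_half (κ T : ℝ) : Mom κ (1 / 2) T = RO.MR κ 0 T := by
  have h := Mom_eq κ 0 T
  rwa [add_zero] at h

lemma MomC_eq (s : ℂ) (r T : ℝ) : MomC s (1 / 2 + r) T = RO.MC s r T := by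
  unfold MomC RO.MC
  simp only [z_eq]

lemma a_eq (κ : ℝ) : a κ = H306R2.aF κ := rfl

lemma aC_eq (s : ℂ) : aC s = N748.MG.aC s := rfl

lemma hA (V : ℝ) : (N748.MG.aC V).re = H306R2.aF V := N748.MG.aC_re V

lemma line_iff (c : ℝ → ℝ) (κ : ℝ) : Line c κ ↔ RO.Line c κ := by
  unfold Line RO.Line
  simp only [Mom_half]

lemma near_iff (c : ℝ → ℝ) (κ : ℝ) : Near c κ ↔ RO.Near c κ := by
  unfold Near RO.Near
  simp only [Mom_eq, a_eq]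

lemma poly_iff (c : ℝ → ℝ) (κ : ℝ) : Poly c κ ↔ RO.Poly c κ := by
  unfold Poly RO.Poly
  simp only [Mom_eq]

lemma nearC_iff (c : ℝ → ℝ) (κ : ℝ) : NearC c κ ↔ RO.NearC c κ := by
  unfold NearC RO.NearC
  simp only [MomC_eq, aC_eq]

lemma sc_of {c : ℝ → ℝ} {S K : ℝ} (h : Scale c S K) : RO.Sc c S K := ⟨h.1, h.2.1, h.2.2.1, h.2.2.2.1, h.2.2.2.2⟩

lemma ad_iff (d : ℝ → ℝ) : Adm d ↔ N748.MG.Ad d := ⟨fun h => ⟨h.1, h.2.1, h.2.2⟩, fun h => ⟨h.pos, h.t0, h.tL⟩⟩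

/-- **All real and complex moments of zeta just off the critical line.** -/
theorem result :
    (∀ κ : ℝ, 0 < κ → 0 < a κ) ∧
    -- the moments on the line and just off the line
    (∀ (c : ℝ → ℝ) (S K : ℝ), Scale c S K →
      (∀ k : ℕ, 1 ≤ k → List.TFAE [Line c k, Near c k, Poly c k] ∧ (Line c k → NearC c k)) ∧
      List.TFAE [∀ κ : ℝ, 0 < κ → Line c κ, ∀ κ : ℝ, 0 < κ → Near c κ, ∀ κ : ℝ, 0 < κ → Poly c κ,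
        ∀ κ : ℝ, 0 < κ → NearC c κ]) ∧
    -- a weak bound for one moment gives the asymptotic formulae for all the lower ones
    (∀ (d : ℝ → ℝ) (κ A : ℝ), Adm d → 0 < κ →
      (∀ᶠ T : ℝ in atTop, Mom κ (1 / 2 + d T) T ≤ T * d T ^ (-A)) →
      (∀ k : ℝ, 0 ≤ k → k < κ →
        Tendsto (fun T : ℝ => (2 * d T) ^ (k ^ 2) * (1 / T * Mom k (1 / 2 + d T) T)) atTop (𝓝 (a k))) ∧
      ∀ R κ' ε : ℝ, κ' < κ → 0 < ε → ∀ᶠ T : ℝ in atTop, ∀ s : ℂ, ‖s‖ ≤ R → 0 ≤ s.re → s.re ≤ κ' →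
        ‖((2 * d T : ℝ) : ℂ) ^ (s ^ 2) * ((1 / T : ℝ) * MomC s (1 / 2 + d T) T) - aC s‖ ≤ ε) ∧
    -- unconditionally: all the complex orders `2s`, `0 ≤ Re s < 2`
    (∀ d : ℝ → ℝ, Adm d → ∀ R κ' ε : ℝ, κ' < 2 → 0 < ε → ∀ᶠ T : ℝ in atTop, ∀ s : ℂ, ‖s‖ ≤ R → 0 ≤ s.re → s.re ≤ κ' →
      ‖((2 * d T : ℝ) : ℂ) ^ (s ^ 2) * ((1 / T : ℝ) * MomC s (1 / 2 + d T) T) - aC s‖ ≤ ε) ∧
    -- the Lindelöf hypothesis
    List.TFAE [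
      Lindelof,
      ∃ d : ℝ → ℝ, Adm d ∧ ∀ κ : ℝ, 0 < κ →
        Tendsto (fun T : ℝ => (2 * d T) ^ (κ ^ 2) * (1 / T * Mom κ (1 / 2 + d T) T)) atTop (𝓝 (a κ)),
      ∃ d : ℝ → ℝ, Adm d ∧ ∀ R ε : ℝ, 0 < ε → ∀ᶠ T : ℝ in atTop, ∀ s : ℂ, ‖s‖ ≤ R → 0 ≤ s.re →
        ‖((2 * d T : ℝ) : ℂ) ^ (s ^ 2) * ((1 / T : ℝ) * MomC s (1 / 2 + d T) T) - aC s‖ ≤ ε,
      ∃ d : ℝ → ℝ, Adm d ∧ ∀ k : ℕ, ∃ A : ℝ, ∀ᶠ T : ℝ in atTop, Mom k (1 / 2 + d T) T ≤ T * Real.log T ^ A] := by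
  refine ⟨fun κ hκ => H306R2.aF_pos hκ, fun c S K h => ⟨fun k hk => ⟨?_, ?_⟩, ?_⟩, ?_, ?_, ?_⟩
  · rw [line_iff, near_iff, poly_iff]
    exact RO.tfae_k (sc_of h) hk
  · rw [line_iff, nearC_iff]
    exact fun hL => RO.near_nearC N748.MG.cmF (sc_of h) hk (RO.line_near (sc_of h) hk hL)
  · simp only [line_iff, near_iff, poly_iff, nearC_iff]
    exact RO.tfae_all N748.MG.cmF hA (sc_of h)
  · intro d κ A hd hκ hM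
    simp only [Mom_eq] at hM
    simp only [Mom_eq, MomC_eq, aC_eq, a_eq]
    have hd' := (ad_iff d).1 hd
    refine ⟨fun k hk0 hk => ?_, fun R κ' ε hκ' hε => RO.cx N748.MG.cmF hd' hκ hM R hκ' hε⟩
    rw [← hA]
    exact RO.real_of_cx hd'.pos hk0 fun ε hε => RO.cx N748.MG.cmF hd' hκ hM |k| hk hε
  · intro d hd R κ' ε hκ' hε
    simp only [MomC_eq, aC_eq]
    have hd' := (ad_iff d).1 hd
    obtain ⟨A, hM⟩ := RO.four_le hd'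
    exact RO.cx N748.MG.cmF hd' (by norm_num) hM R hκ' hε
  · simp only [Mom_eq, MomC_eq, aC_eq, a_eq, ad_iff]
    exact RO.LH_tfae N748.MG.cmF hA

end Pool.Agent.Results.MP_973905_nt.RealOffTheLine
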