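import Pool.Agent.U899.TW.All

set_option autoImplicit false

/-!
# Moments of zeta near the critical line in almost all short windows, and the phases of the small primes

Let `0 < k < 1`, `d = d(T) → 0` with `d log T → ∞`, and let the length `H = H(T) ≤ T` of the windows tend to
infinity, arbitrarily slowly.  In the mean over `0 ≤ t ≤ T`, and hence for almost all `t`,

`(2d)^(k²) (1/H) ∫_t^(t+H) F(phases of p^(-iu), p ∈ P) |ζ(1/2 + d + iu)|^(2k) du`

is close to `a(k)` times the mean value of `F` for independent phases with densities proportional to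
`|1 - e(y) p^(-1/2)|^(-2k)`, for every finite set `P` of primes and every continuous function `F`.  So in almost
all windows the moment of order `2k` has its expected value, and under the measure `|ζ(1/2 + d + iu)|^(2k) du` the
phases of the small primes are asymptotically independent with these explicit densities.
-/

namespace Pool.Agent.Results.MP_973905_nt.SmallPrimesInWindows

open MeasureTheory Filter Topology

/-- The arithmetic factor `a(k)`; `k(k+1)⋯(k+m-1)/m!` is `Γ(k+m)/(Γ(k) m!)`. -/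
noncomputable def a (k : ℝ) : ℝ := ∏' p : Nat.Primes, ((1 - 1 / (p : ℝ)) ^ (k ^ 2) *
  ∑' m : ℕ, (∏ i ∈ Finset.range m, (k + i) / ((i : ℝ) + 1)) ^ 2 * (1 / (p : ℝ)) ^ m)

/-- The phases `-u log p / 2π` modulo one of the numbers `p^(-iu)`, `p ∈ P`. -/
noncomputable def phases (P : Finset ℕ) (u : ℝ) : P → UnitAddCircle :=
  fun p => ((-(u * Real.log (p : ℕ) / (2 * Real.pi)) : ℝ) : UnitAddCircle)

/-- `|1 - e(y) p^(-1/2)|^(-2k)`, with `e(y) = exp(2πiy)`. -/
noncomputable def weight (k : ℝ) (p : ℕ) (y : UnitAddCircle) : ℝ :=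
  ‖1 - (fourier 1 y : ℂ) * (((p : ℝ) ^ (-(1 / 2 : ℝ)) : ℝ) : ℂ)‖ ^ (-(2 * k))

/-- The mean value of `F` for independent phases whose densities are proportional to the weights. -/
noncomputable def tiltedMean (k : ℝ) (P : Finset ℕ) (F : (P → UnitAddCircle) → ℝ) : ℝ :=
  (∫ x, F x * ∏ p : P, weight k p (x p) ∂(Measure.pi fun _ : P => AddCircle.haarAddCircle (T := (1 : ℝ)))) /
    ∏ p : P, ∫ y, weight k p y ∂(AddCircle.haarAddCircle (T := (1 : ℝ)))

/-- The moment of order `2k` at distance `d` in the window `[t, t + H]`, with the weight `F`. -/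
noncomputable def windowMoment (k d : ℝ) (P : Finset ℕ) (F : (P → UnitAddCircle) → ℝ) (t H : ℝ) : ℝ :=
  (1 / H) * ∫ u in t..(t + H), F (phases P u) * ‖riemannZeta (1 / 2 + d + u * Complex.I)‖ ^ (2 * k)

theorem result (k : ℝ) (hk0 : 0 < k) (hk1 : k < 1) (d H : ℝ → ℝ) (hd : Tendsto d atTop (𝓝 0))
    (hdL : Tendsto (fun T : ℝ => d T * Real.log T) atTop atTop) (hH : Tendsto H atTop atTop)
    (hHT : ∀ᶠ T in atTop, H T ≤ T) :
    0 < a k ∧ ∀ P : Finset ℕ, (∀ p ∈ P, p.Prime) → ∀ F : (P → UnitAddCircle) → ℝ, Continuous F →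
      Tendsto (fun T : ℝ => (1 / T) * ∫ t in (0 : ℝ)..T,
        |(2 * d T) ^ (k ^ 2) * windowMoment k (d T) P F t (H T) - a k * tiltedMean k P F|) atTop (𝓝 0) := by
  have hak : 0 < a k := Pool.Agent.H306R2.aF_pos hk0
  refine ⟨hak, fun P hP F hF => ?_⟩
  have haa : Pool.Agent.N748.GC.aa k = a k := rfl
  have hPd : Pool.Agent.N748.GC.Pd d := ⟨hd, hdL⟩
  have hdp : ∀ᶠ T in atTop, 0 < d T := by
    filter_upwards [hdL.eventually_gt_atTop 0, eventually_gt_atTop (1 : ℝ)] with T h1 h2
    exact (pos_iff_pos_of_mul_pos h1).2 (Real.log_pos h2)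
  have hcore := Pool.Agent.N748.GC.coreF
  have herg := Pool.Agent.N748.GC.ERG.main
  have hwin := Pool.Agent.N748.GC.WIN.main hcore herg
  set G : C(UnitAddTorus P, ℂ) := ⟨fun x => ((F x : ℝ) : ℂ), Complex.continuous_ofReal.comp hF⟩ with hG
  have hlim := Pool.Agent.U899.TW.dv_lim (P := P) hcore herg hwin hk0 hk1 (by rw [haa]; exact hak) hPd hdp hH hHT hP G
  -- the density
  have hw : ∀ (p : P) (y : UnitAddCircle), Real.exp (Pool.Agent.N748.GC.lw k p y) = weight k p y := by
    intro p y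
    unfold Pool.Agent.N748.GC.lw weight
    rw [Real.rpow_def_of_pos (Pool.Agent.N748.GC.RZ.norm_pos' (hP p p.2) y)]
    congr 1
    ring
  have hM : ∀ x : P → UnitAddCircle, Pool.Agent.N748.GC.M0 k P x =
      (∏ p : P, weight k p (x p)) / ∏ p : P, ∫ y, weight k p y ∂(AddCircle.haarAddCircle (T := (1 : ℝ))) := by
    intro x
    unfold Pool.Agent.N748.GC.M0 Pool.Agent.N748.GC.E0
    rw [Real.exp_sum]
    simp only [hw]
  have hLL : Pool.Agent.U899.TW.LL k P G = ((tiltedMean k P F : ℝ) : ℂ) := by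
    unfold Pool.Agent.U899.TW.LL tiltedMean
    rw [← integral_div, ← integral_complex_ofReal]
    refine integral_congr_ae (ae_of_all _ fun x => ?_)
    simp only [hG, ContinuousMap.coe_mk, hM]
    push_cast
    ring
  have hfin := hlim.const_mul (a k)
  rw [mul_zero] at hfin
  refine hfin.congr fun T => ?_
  rw [Pool.Agent.U899.TW.dv_eq, mul_left_comm, ← intervalIntegral.integral_const_mul]
  congr 1
  refine intervalIntegral.integral_congr fun t _ => ?_
  have e1 : ∫ u in t..(t + H T), G (Pool.Agent.N748.GC.pt P u) * ((Pool.Agent.N748.GC.Zn k (d T) u : ℝ) : ℂ) =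
      (((2 * d T) ^ (k ^ 2) / a k * ∫ u in t..(t + H T), F (phases P u) *
        ‖riemannZeta (1 / 2 + d T + u * Complex.I)‖ ^ (2 * k) : ℝ) : ℂ) := by
    rw [← intervalIntegral.integral_const_mul, ← intervalIntegral.integral_ofReal]
    refine intervalIntegral.integral_congr fun u _ => ?_
    simp only [hG, ContinuousMap.coe_mk]
    rw [← Complex.ofReal_mul]
    congr 1
    unfold Pool.Agent.N748.GC.Zn
    rw [haa]
    change F (phases P u) * _ = _
    ring
  unfold Pool.Agent.U899.TW.kk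
  rw [e1, hLL]
  have e2 : (1 / (H T : ℂ)) * (((2 * d T) ^ (k ^ 2) / a k * ∫ u in t..(t + H T), F (phases P u) *
        ‖riemannZeta (1 / 2 + d T + u * Complex.I)‖ ^ (2 * k) : ℝ) : ℂ) - ((tiltedMean k P F : ℝ) : ℂ) =
      (((1 / a k) * ((2 * d T) ^ (k ^ 2) * windowMoment k (d T) P F t (H T) - a k * tiltedMean k P F) : ℝ) : ℂ) := by
    unfold windowMoment
    generalize (∫ u in t..(t + H T), F (phases P u) *
        ‖riemannZeta (1 / 2 + d T + u * Complex.I)‖ ^ (2 * k)) = J
    generalize (2 * d T) ^ (k ^ 2) = c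
    push_cast
    have : (a k : ℂ) ≠ 0 := by exact_mod_cast hak.ne'
    field_simp
  rw [e2, Complex.norm_real, Real.norm_eq_abs, abs_mul, abs_of_pos (by positivity : 0 < 1 / a k), ← mul_assoc,
    mul_one_div_cancel hak.ne', one_mul]

end Pool.Agent.Results.MP_973905_nt.SmallPrimesInWindows
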